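import Mathlib.Combinatorics.SimpleGraph.Acyclic
import Mathlib.Data.Fintype.Powerset
import Mathlib.Data.Real.Basic
import Mathlib.Tactic

/-!
# Edge marginals of uniform `k`-component forests are not monotone

In the complete tripartite graph `K_{1,1,5}` (7 vertices, 11 edges) the edge joining the two vertices
of full degree has probability `32/112` in the uniform spanning tree and `80/272` in the uniform
two-component forest.
-/

set_option autoImplicit false

namespace Pool.Agent.Results.MP_bb4aa0_pr.CompleteTripartite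

open Finset

/-- The forests of `G` with exactly `k` components, that is the acyclic spanning subgraphs with
exactly `|V| - k` edges. -/
def forests {V : Type} [Fintype V] (G : SimpleGraph V) (k : ℕ) : Set (SimpleGraph V) :=
  {H | H ≤ G ∧ H.IsAcyclic ∧ H.edgeSet.ncard + k = Fintype.card V}

/-- `UF_k[ω(e) = 1]`: the probability that the edge `e` belongs to a uniformly random forest of `G`
with exactly `k` components. -/
noncomputable def UF {V : Type} [Fintype V] (G : SimpleGraph V) (k : ℕ) (e : Sym2 V) : ℝ :=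
  ({H | H ∈ forests G k ∧ e ∈ H.edgeSet}.ncard : ℝ) / ((forests G k).ncard : ℝ)

/-- the vertices of `K_{1,1,5}` -/
abbrev V7 := Bool ⊕ Fin 5

/-- names of the edges of `K_{1,1,5}` -/
abbrev P := Option (Bool × Fin 5)

/-- the edges -/
def pe : P → Sym2 V7
  | none => s(Sum.inl false, Sum.inl true)
  | some (a, i) => s(Sum.inl a, Sum.inr i)

theorem pe_inj : Function.Injective pe := by decide

theorem pe_diag : ∀ q, ¬ (pe q).IsDiag := by decide

/-- the spanning subgraph with the edges named in `S` -/
def gr (S : Finset P) : SimpleGraph V7 := SimpleGraph.fromEdgeSet (pe '' (S : Set P))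

theorem gr_edgeSet (S : Finset P) : (gr S).edgeSet = pe '' (S : Set P) := by
  unfold gr
  rw [SimpleGraph.edgeSet_fromEdgeSet]
  ext e
  constructor
  · exact fun h => h.1
  · rintro ⟨q, hq, rfl⟩
    exact ⟨⟨q, hq, rfl⟩, pe_diag q⟩

theorem mem_gr (S : Finset P) (q : P) : pe q ∈ (gr S).edgeSet ↔ q ∈ S := by
  rw [gr_edgeSet]
  constructor
  · rintro ⟨q', hq', h⟩
    rw [← pe_inj h]
    exact hq'
  · exact fun h => ⟨q, h, rfl⟩

theorem gr_ncard (S : Finset P) : (gr S).edgeSet.ncard = S.card := by
  rw [gr_edgeSet, Set.ncard_image_of_injective _ pe_inj, Set.ncard_coe_finset]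

theorem gr_mono {S T : Finset P} (h : S ⊆ T) : gr S ≤ gr T := by
  rw [← SimpleGraph.edgeSet_subset_edgeSet, gr_edgeSet, gr_edgeSet]
  exact Set.image_mono (by exact_mod_cast h)

theorem gr_adj (S : Finset P) (a : Bool) (i : Fin 5) (h : some (a, i) ∈ S) :
    (gr S).Adj (Sum.inl a) (Sum.inr i) := by
  rw [← SimpleGraph.mem_edgeSet]
  exact (mem_gr S (some (a, i))).2 h

theorem gr_adj_hub (S : Finset P) (h : none ∈ S) : (gr S).Adj (Sum.inl false) (Sum.inl true) := by
  rw [← SimpleGraph.mem_edgeSet]
  exact (mem_gr S none).2 h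

/-- the complete tripartite graph `K_{1,1,5}` -/
def K : SimpleGraph V7 := gr univ

/-- number of connections between the two hubs -/
def con (S : Finset P) : ℕ :=
  (if none ∈ S then 1 else 0) +
    (univ.filter (fun i : Fin 5 => some (false, i) ∈ S ∧ some (true, i) ∈ S)).card

theorem conn_of (S : Finset P) (h1 : ∀ i : Fin 5, some (false, i) ∈ S ∨ some (true, i) ∈ S)
    (h2 : none ∈ S ∨ ∃ i : Fin 5, some (false, i) ∈ S ∧ some (true, i) ∈ S) :
    (gr S).Connected := by
  have hub : (gr S).Reachable (Sum.inl false) (Sum.inl true) := by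
    rcases h2 with h | ⟨i, ha, hb⟩
    · exact (gr_adj_hub S h).reachable
    · exact (gr_adj S false i ha).reachable.trans (gr_adj S true i hb).symm.reachable
  have hall : ∀ v : V7, (gr S).Reachable (Sum.inl false) v := by
    rintro (a | i)
    · cases a
      · exact SimpleGraph.Reachable.refl _
      · exact hub
    · rcases h1 i with h | h
      · exact (gr_adj S false i h).reachable
      · exact hub.trans (gr_adj S true i h).reachable
  rw [SimpleGraph.connected_iff]
  exact ⟨fun u v => (hall u).symm.trans (hall v), ⟨Sum.inl false⟩⟩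

/-- completion to a spanning tree -/
def ext (S : Finset P) : Finset P :=
  S ∪ (univ.filter (fun i : Fin 5 => ¬ (some (false, i) ∈ S ∨ some (true, i) ∈ S))).image
      (fun i => some (false, i)) ∪ (if con S = 0 then {none} else ∅)

theorem ext_spec : ∀ S : Finset P, con S ≤ 1 → S ⊆ ext S ∧ (ext S).card = 6 ∧
    (∀ i : Fin 5, some (false, i) ∈ ext S ∨ some (true, i) ∈ ext S) ∧
    (none ∈ ext S ∨ ∃ i : Fin 5, some (false, i) ∈ ext S ∧ some (true, i) ∈ ext S) := by
  decide +kernel

theorem acyclic_of (S : Finset P) (h : con S ≤ 1) : (gr S).IsAcyclic := by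
  obtain ⟨h1, h2, h3, h4⟩ := ext_spec S h
  have htree : (gr (ext S)).IsTree := by
    rw [SimpleGraph.isTree_iff_connected_and_card]
    refine ⟨conn_of _ h3 h4, ?_⟩
    rw [Nat.card_coe_set_eq, gr_ncard, h2, Nat.card_eq_fintype_card]
    rfl
  exact htree.isAcyclic.anti (gr_mono h1)

/-- path through a vertex of degree two -/
def via (S : Finset P) (i : Fin 5) (h1 : some (false, i) ∈ S) (h2 : some (true, i) ∈ S) :
    (gr S).Path (Sum.inl false) (Sum.inl true) :=
  ⟨SimpleGraph.Walk.cons (gr_adj S false i h1)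
    (SimpleGraph.Walk.cons (gr_adj S true i h2).symm SimpleGraph.Walk.nil), by
    simp [SimpleGraph.Walk.isPath_def]⟩

theorem con_of_acyclic (S : Finset P) (h : (gr S).IsAcyclic) : con S ≤ 1 := by
  rw [SimpleGraph.isAcyclic_iff_path_unique] at h
  have hone : ∀ i j : Fin 5, some (false, i) ∈ S → some (true, i) ∈ S → some (false, j) ∈ S →
      some (true, j) ∈ S → i = j := by
    intro i j hi hi' hj hj'
    have h1 := congrArg (fun p : (gr S).Path (Sum.inl false) (Sum.inl true) => p.1.support)
      (h (via S i hi hi') (via S j hj hj'))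
    simpa [via] using h1
  have hnone : none ∈ S → ∀ i : Fin 5, some (false, i) ∈ S → some (true, i) ∈ S → False := by
    intro hn i hi hi'
    have h1 := congrArg (fun p : (gr S).Path (Sum.inl false) (Sum.inl true) => p.1.support)
      (h (via S i hi hi') ⟨SimpleGraph.Walk.cons (gr_adj_hub S hn) SimpleGraph.Walk.nil, by
        simp [SimpleGraph.Walk.isPath_def]⟩)
    simp [via] at h1
  unfold con
  by_cases hn : none ∈ S
  · rw [if_pos hn]
    have : univ.filter (fun i : Fin 5 => some (false, i) ∈ S ∧ some (true, i) ∈ S) = ∅ := by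
      ext i
      simp only [mem_filter, mem_univ, true_and, notMem_empty, iff_false]
      exact fun hi => hnone hn i hi.1 hi.2
    rw [this]
    simp
  · rw [if_neg hn]
    have : (univ.filter (fun i : Fin 5 => some (false, i) ∈ S ∧ some (true, i) ∈ S)).card ≤ 1 := by
      rw [Finset.card_le_one]
      intro i hi j hj
      simp only [mem_filter, mem_univ, true_and] at hi hj
      exact hone i j hi.1 hi.2 hj.1 hj.2
    omega

theorem gr_injective : Function.Injective gr := by
  intro S T h
  ext q
  rw [← mem_gr, ← mem_gr, h]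

open Classical in
theorem exists_gr (H : SimpleGraph V7) (h : H ≤ K) : ∃ S, gr S = H := by
  refine ⟨univ.filter (fun q => pe q ∈ H.edgeSet), ?_⟩
  rw [← SimpleGraph.edgeSet_inj, gr_edgeSet]
  ext e
  constructor
  · rintro ⟨q, hq, rfl⟩
    simpa using hq
  · intro he
    have h1 := SimpleGraph.edgeSet_subset_edgeSet.2 h he
    unfold K at h1
    rw [gr_edgeSet] at h1
    obtain ⟨q, -, rfl⟩ := h1
    exact ⟨q, by simpa using he, rfl⟩

theorem forests_eq (k : ℕ) :
    forests K k = gr '' {S : Finset P | con S ≤ 1 ∧ S.card + k = 7} := by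
  ext H
  constructor
  · rintro ⟨h1, h2, h3⟩
    obtain ⟨S, rfl⟩ := exists_gr H h1
    refine ⟨S, ⟨con_of_acyclic S h2, ?_⟩, rfl⟩
    rw [gr_ncard] at h3
    exact h3
  · rintro ⟨S, ⟨h1, h2⟩, rfl⟩
    refine ⟨gr_mono (Finset.subset_univ _), acyclic_of S h1, ?_⟩
    rw [gr_ncard]
    exact h2

theorem count_all (k : ℕ) : (forests K k).ncard =
    (univ.filter (fun S : Finset P => con S ≤ 1 ∧ S.card + k = 7)).card := by
  rw [forests_eq, Set.ncard_image_of_injective _ gr_injective, ← Set.ncard_coe_finset]
  congr 1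
  ext S
  simp

theorem count_hub (k : ℕ) : {H | H ∈ forests K k ∧ pe none ∈ H.edgeSet}.ncard =
    (univ.filter (fun S : Finset P => con S ≤ 1 ∧ S.card + k = 7 ∧ none ∈ S)).card := by
  have h1 : {H | H ∈ forests K k ∧ pe none ∈ H.edgeSet} =
      gr '' {S : Finset P | con S ≤ 1 ∧ S.card + k = 7 ∧ none ∈ S} := by
    rw [forests_eq]
    ext H
    constructor
    · rintro ⟨⟨S, ⟨h1, h2⟩, rfl⟩, h3⟩
      exact ⟨S, ⟨h1, h2, (mem_gr S none).1 h3⟩, rfl⟩
    · rintro ⟨S, ⟨h1, h2, h3⟩, rfl⟩
      exact ⟨⟨S, ⟨h1, h2⟩, rfl⟩, (mem_gr S none).2 h3⟩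
  rw [h1, Set.ncard_image_of_injective _ gr_injective, ← Set.ncard_coe_finset]
  congr 1
  ext S
  simp

theorem c1 : (univ.filter (fun S : Finset P => con S ≤ 1 ∧ S.card + 1 = 7)).card = 112 := by
  decide +kernel
theorem c2 : (univ.filter (fun S : Finset P => con S ≤ 1 ∧ S.card + 2 = 7)).card = 272 := by
  decide +kernel
theorem c3 : (univ.filter (fun S : Finset P => con S ≤ 1 ∧ S.card + 1 = 7 ∧ none ∈ S)).card = 32 := by
  decide +kernel
theorem c4 : (univ.filter (fun S : Finset P => con S ≤ 1 ∧ S.card + 2 = 7 ∧ none ∈ S)).card = 80 := by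
  decide +kernel

/-- **Disproof.** It is not true that for every finite connected graph and every edge `e` the
probability `UF_k[ω(e) = 1]` is non-increasing in `k`. (`K_{1,1,5}`, `k = 1`: `32/112 < 80/272`.) -/
theorem result :
    ¬ ∀ (V : Type) [Fintype V] (G : SimpleGraph V), G.Connected → ∀ e ∈ G.edgeSet, ∀ k : ℕ,
      1 ≤ k → k < Fintype.card V → UF G (k + 1) e ≤ UF G k e := by
  intro h
  have hconn : K.Connected := conn_of univ (fun i => Or.inl (mem_univ _)) (Or.inl (mem_univ _))
  have h1 := h V7 K hconn (pe none) ((mem_gr univ none).2 (mem_univ _)) 1 le_rfl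
    (by rw [Fintype.card_sum]; simp)
  unfold UF at h1
  rw [count_hub, count_hub, count_all, count_all, c1, c2, c3, c4] at h1
  norm_num at h1

end Pool.Agent.Results.MP_bb4aa0_pr.CompleteTripartite
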